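import Pool.Agent.N165.CU.StmZ

set_option autoImplicit false
set_option linter.unusedSectionVars false

/-! # The zeta function and the Poincare series, for complex `s` -/

namespace Pool.Agent.N457.CU

open MeasureTheory MvPolynomial Pool.Agent.W427.SMC Pool.Agent.N165.CU

attribute [local instance] msZ bsZ

variable (p : ℕ) [Fact p.Prime]

/-- the zeta function as an integral over the product measure -/
theorem zeta_pi {V : Type} [Fintype V] (f : MvPolynomial V ℤ) (s : ℂ) :
    igusaZeta p f s = ∫ x : V → ℤ_[p], ((‖aeval x f‖ : ℝ) : ℂ) ^ s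
      ∂(Measure.pi fun _ : V => mu p) := by
  unfold igusaZeta
  have hms : (borel (V → ℤ_[p])) = MeasurableSpace.pi := (Pi.borelSpace).measurable_eq.symm
  have key : ∀ (ms : MeasurableSpace (V → ℤ_[p])) (_ : ms = MeasurableSpace.pi)
      (hb : @BorelSpace _ _ ms),
      (@integral _ _ _ _ ms (@Measure.addHaarMeasure _ _ _ _ ms hb
        (⊤ : TopologicalSpace.PositiveCompacts (V → ℤ_[p])))
        (fun x => ((‖aeval x f‖ : ℝ) : ℂ) ^ s)) =
      ∫ x : V → ℤ_[p], ((‖aeval x f‖ : ℝ) : ℂ) ^ s ∂(Measure.pi fun _ : V => mu p) := by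
    intro ms h hb
    subst h
    have h1 : (Measure.pi fun _ : V => mu p) =
        Measure.addHaarMeasure (⊤ : TopologicalSpace.PositiveCompacts (V → ℤ_[p])) := by
      have h2 := Measure.addHaarMeasure_unique (Measure.pi fun _ : V => mu p)
        (⊤ : TopologicalSpace.PositiveCompacts (V → ℤ_[p]))
      rw [h2]
      have : (Measure.pi fun _ : V => mu p)
          ((⊤ : TopologicalSpace.PositiveCompacts (V → ℤ_[p])) : Set (V → ℤ_[p])) = 1 :=
        measure_univ
      rw [this, one_smul]
    rw [← h1]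
  exact key (borel _) hms (@BorelSpace.mk _ _ (borel _) rfl)

theorem norm_T (s : ℂ) (hs : 0 < s.re) : ‖(p : ℂ) ^ (-s)‖ < 1 := by
  have hp : (1 : ℝ) < p := by exact_mod_cast (Fact.out : p.Prime).one_lt
  rw [Complex.norm_natCast_cpow_of_pos (Fact.out : p.Prime).pos]
  exact Real.rpow_lt_one_of_one_lt_of_neg hp (by simpa using hs)

open Classical in
/-- the pointwise identity -/
theorem pointwise (s : ℂ) (hs : 0 < s.re) (z : ℤ_[p]) :
    ((‖z‖ : ℝ) : ℂ) ^ s + (1 - (p : ℂ) ^ (-s)) *
      ∑' m : ℕ, (if (p : ℤ_[p]) ^ (m + 1) ∣ z then ((p : ℂ) ^ (-s)) ^ m else 0) = 1 := by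
  have hT := norm_T p s hs
  set T : ℂ := (p : ℂ) ^ (-s) with hTd
  have hT1 : 1 - T ≠ 0 := by
    intro h
    have : T = 1 := (sub_eq_zero.1 h).symm
    rw [this, norm_one] at hT
    exact lt_irrefl _ hT
  have hs0 : s ≠ 0 := by
    intro h
    rw [h, Complex.zero_re] at hs
    exact lt_irrefl _ hs
  rcases eq_or_ne z 0 with rfl | hz
  · simp only [dvd_zero, if_true]
    rw [norm_zero, Complex.ofReal_zero, Complex.zero_cpow hs0, tsum_geometric_of_norm_lt_one hT,
      mul_inv_cancel₀ hT1, zero_add]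
  · have h3 : ((‖z‖ : ℝ) : ℂ) ^ s = T ^ z.valuation := by
      have hz0 : ((‖z‖ : ℝ) : ℂ) ≠ 0 := by
        exact_mod_cast (norm_pos_iff.2 hz).ne'
      have hp0 : (p : ℂ) ≠ 0 := by exact_mod_cast (Fact.out : p.Prime).ne_zero
      rw [hTd, Complex.cpow_def_of_ne_zero hz0, Complex.cpow_def_of_ne_zero hp0,
        ← Complex.exp_nat_mul, ← Complex.ofReal_log (norm_nonneg _),
        PadicInt.norm_eq_zpow_neg_valuation hz, Real.log_zpow, ← Complex.natCast_log]
      congr 1
      push_cast
      ring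
    have h4 : ∑' m : ℕ, (if (p : ℤ_[p]) ^ (m + 1) ∣ z then T ^ m else 0) =
        ∑ m ∈ Finset.range z.valuation, T ^ m := by
      rw [tsum_eq_sum (s := Finset.range z.valuation)]
      · refine Finset.sum_congr rfl fun m hm => ?_
        rw [if_pos]
        rw [dvd_iff_val p _ z hz]
        exact Finset.mem_range.1 hm
      · intro m hm
        rw [if_neg]
        rw [dvd_iff_val p _ z hz]
        intro h
        exact hm (Finset.mem_range.2 h)
    rw [h3, h4, mul_neg_geom_sum]
    ring

variable {V : Type} [Fintype V] (f : MvPolynomial V ℤ)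

theorem dvd_meas (m : ℕ) : MeasurableSet {z : V → ℤ_[p] | (p : ℤ_[p]) ^ m ∣ aeval z f} := by
  have : {z : V → ℤ_[p] | (p : ℤ_[p]) ^ m ∣ aeval z f} =
      {z : V → ℤ_[p] | ‖aeval z f‖ ≤ ‖(p : ℤ_[p]) ^ m‖} := by
    ext z; rw [Set.mem_ofPred_eq, Set.mem_ofPred_eq, dvd_iff_norm]
  rw [this]
  exact (isClosed_le (continuous_norm.comp (aeval_cont p f)) continuous_const).measurableSet

open Classical in
theorem tz : S_Z := by
  intro p _ V _ f s hs
  have hT := norm_T p s hs
  have hpt := pointwise p s hs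
  set T : ℂ := (p : ℂ) ^ (-s) with hTd
  set P : Measure (V → ℤ_[p]) := Measure.pi fun _ : V => mu p with hP
  have hPp : IsProbabilityMeasure P := by rw [hP]; infer_instance
  have hT1 : 1 - T ≠ 0 := by
    intro h
    have : T = 1 := (sub_eq_zero.1 h).symm
    rw [this, norm_one] at hT
    exact lt_irrefl _ hT
  set F : ℕ → (V → ℤ_[p]) → ℂ := fun m z =>
    if (p : ℤ_[p]) ^ (m + 1) ∣ aeval z f then T ^ m else 0 with hF
  have hFi : ∀ m, F m = ({z : V → ℤ_[p] | (p : ℤ_[p]) ^ (m + 1) ∣ aeval z f}).indicator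
      (fun _ => T ^ m) := by
    intro m
    funext z
    simp only [hF]
    by_cases h : (p : ℤ_[p]) ^ (m + 1) ∣ aeval z f
    · rw [if_pos h, Set.indicator_of_mem (by exact h)]
    · rw [if_neg h, Set.indicator_of_notMem (by exact h)]
  have hint : ∀ m, Integrable (F m) P := by
    intro m
    rw [hFi]
    exact (integrable_const _).indicator (dvd_meas p f (m + 1))
  have hval : ∀ m, ∫ z, F m z ∂P = (cN p f (m + 1) : ℂ) * T ^ m := by
    intro m
    rw [hFi, integral_indicator_const _ (dvd_meas p f (m + 1)), ← cN_eq, Measure.real]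
    exact Complex.real_smul
  have hn : ∀ m z, ‖F m z‖ ≤ ‖T‖ ^ m := by
    intro m z
    simp only [hF]
    split_ifs
    · rw [norm_pow]
    · rw [norm_zero]; positivity
  have hsumn : Summable fun m => ∫ z, ‖F m z‖ ∂P := by
    refine Summable.of_nonneg_of_le (fun m => integral_nonneg fun z => norm_nonneg _)
      (fun m => ?_) (summable_geometric_of_lt_one (norm_nonneg T) hT)
    calc ∫ z, ‖F m z‖ ∂P ≤ ∫ _z, ‖T‖ ^ m ∂P :=
          integral_mono (hint m).norm (integrable_const _) fun z => hn m z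
      _ = ‖T‖ ^ m := by simp
  have hts := integral_tsum_of_summable_integral_norm hint hsumn
  have hA : Measurable fun z : V → ℤ_[p] => ((‖aeval z f‖ : ℝ) : ℂ) ^ s :=
    (Complex.measurable_ofReal.comp (continuous_norm.comp (aeval_cont p f)).measurable).pow_const s
  have hAi : Integrable (fun z : V → ℤ_[p] => ((‖aeval z f‖ : ℝ) : ℂ) ^ s) P := by
    refine Integrable.of_bound hA.aestronglyMeasurable 1
      (Filter.Eventually.of_forall fun z => ?_)
    rcases (norm_nonneg (aeval z f)).lt_or_eq with h | h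
    · rw [Complex.norm_cpow_eq_rpow_re_of_pos h]
      exact Real.rpow_le_one h.le (PadicInt.norm_le_one _) hs.le
    · rw [← h, Complex.ofReal_zero, Complex.zero_cpow, norm_zero]
      · exact zero_le_one
      · intro h
        rw [h, Complex.zero_re] at hs
        exact lt_irrefl _ hs
  have hB : ∀ z : V → ℤ_[p], ∑' m, F m z = (1 - ((‖aeval z f‖ : ℝ) : ℂ) ^ s) / (1 - T) := by
    intro z
    rw [eq_div_iff hT1]
    have := hpt (aeval z f)
    simp only [hF]
    linear_combination this
  have hB2 : ∫ z, ∑' m, F m z ∂P = (1 - igusaZeta p f s) / (1 - T) := by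
    simp only [hB]
    rw [integral_div, integral_sub (integrable_const _) hAi, zeta_pi]
    simp [hP]
  have hmain : ∑' m : ℕ, (cN p f (m + 1) : ℂ) * T ^ m = (1 - igusaZeta p f s) / (1 - T) := by
    rw [← hB2, ← hts]
    exact tsum_congr fun m => (hval m).symm
  have hsum : Summable fun m : ℕ => (cN p f m : ℂ) * T ^ m := by
    refine Summable.of_norm_bounded (summable_geometric_of_lt_one (norm_nonneg T) hT)
      fun m => ?_
    rw [norm_mul, norm_pow, Complex.norm_real, Real.norm_of_nonneg (cN_nonneg p f m)]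
    exact mul_le_of_le_one_left (by positivity) (cN_le_one p f m)
  rw [hsum.tsum_eq_zero_add, cN_zero, pow_zero, mul_one, Complex.ofReal_one]
  have h5 : ∑' m : ℕ, (cN p f (m + 1) : ℂ) * T ^ (m + 1) =
      T * ∑' m : ℕ, (cN p f (m + 1) : ℂ) * T ^ m := by
    rw [← tsum_mul_left]
    refine tsum_congr fun m => ?_
    ring
  rw [h5, hmain]
  field_simp
  ring

end Pool.Agent.N457.CU
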